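import Pool.Agent.H97.PR.Targets
import Pool.Agent.H97.RK.FNB

/-!
# Board pry_modules (MP_c62aed_lc), row FEX: unsatisfiable formulas with an adversary
-/

set_option autoImplicit false

namespace Pool.Agent.H4.PRY

open Finset Pool.Agent.H97 Pool.Agent.H97.PR

/-- Row FEX. -/
theorem pf_FEX (hADV : T_ADV) (hPX1 : RK.T_PX1) (hPX2 : RK.T_PX2) (hPSA : RK.T_PSA)
    (hNX1 : RK.T_NX1) (hNX2 : RK.T_NX2) (hNSA : RK.T_NSA) (hPRM : RK.T_PRM) : T_FEX := by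
  classical
  intro ε hε hε1
  obtain ⟨δ, κ, hδ, hδ1, hκ, hκ1, hprm⟩ := hPRM ε hε hε1
  obtain ⟨σ, hσ, hσ1, K₁, hnx1⟩ := hNX1 κ hκ hκ1
  obtain ⟨K₂, hK₂, hprm⟩ := hprm σ hσ
  obtain ⟨K₃, hK₃, hnx2⟩ := hNX2 δ hδ hδ1
  obtain ⟨K₄, hnsa⟩ := hNSA
  obtain ⟨k, hKdef⟩ : ∃ k : ℕ, k = K₁ + K₂ + K₃ + K₄ := ⟨_, rfl⟩
  have hK1 : 1 ≤ k := by omega
  refine ⟨k, 2 ^ k, k * k + k + 2, fun N hN => ?_⟩
  obtain ⟨m, hm⟩ : ∃ m : ℕ, m = 2 ^ k * N := ⟨_, rfl⟩
  have hkk : k * k ≤ N := by omega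
  have hkN : k ≤ N := by omega
  have hN1 : 1 ≤ N := by omega
  have hN0 : (0 : ℝ) < N := by exact_mod_cast hN1
  obtain ⟨j, t, d, e, hj1, hj2, ht1, hts, hte, hje, hed, hd1, hde, hdn, hkt, hA, -, -⟩ :=
    hprm k k N (by omega) le_rfl hkk
  have hs₀ : ⌊σ * N⌋₊ ≤ N := by
    refine Nat.floor_le_of_le ?_
    nlinarith
  have hm4 : m ≤ 4 ^ k * N := by
    rw [hm]
    exact Nat.mul_le_mul_right _ (Nat.pow_le_pow_left (by norm_num) k)
  have hmr : (m : ℝ) ≤ (2 : ℝ) ^ ((1 + 1 / (k : ℝ)) * k) * N := by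
    rw [hm]
    push_cast
    refine mul_le_mul_of_nonneg_right ?_ hN0.le
    rw [← Real.rpow_natCast]
    refine Real.rpow_le_rpow_of_exponent_le (by norm_num) ?_
    have h3 : 0 ≤ 1 / (k : ℝ) := by positivity
    have h4 : (0 : ℝ) ≤ k := Nat.cast_nonneg _
    nlinarith
  have hx1 := hnx1 k N m j (by omega) (by omega) hm4 hj1 hj2.le
  have hx2 := hnx2 k k N m t d e (by omega) (by omega) (by omega) hmr hdn (by omega) hed hkt
  have hx3 := hnsa k N m (by omega) (by rw [hm])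
  -- a formula with the three properties
  have hex : ∃ F : RK.Fml N k m, RK.X1 F j ⌊σ * N⌋₊ ∧ RK.X2 F t d e ∧
      ∀ z, ∃ c, RK.Falsified (RK.cls F c) z := by
    by_contra hno
    push Not at hno
    have hT : ((Nat.card (RK.Fml N k m) : ℕ) : ℝ) = ((2 * N) ^ k : ℝ) ^ m := by
      rw [Nat.card_eq_fintype_card, Fintype.card_fun, Fintype.card_fun, Fintype.card_prod,
        Fintype.card_fin, Fintype.card_fin, Fintype.card_fin, Fintype.card_bool]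
      push_cast
      ring
    have hb : ∀ a : ℝ, ∀ b : ℝ, a ≤ b * ((2 * N) ^ k : ℝ) ^ m → b ≤ 1 / (4 * N) →
        a ≤ 1 / (4 * N) * ((2 * N) ^ k : ℝ) ^ m := fun a b h1 h2 =>
      h1.trans (mul_le_mul_of_nonneg_right h2 (by positivity))
    have h1 := RK.count_fin (α := RK.Fml N k m) (fun _ => True)
      (fun F => RK.X1 F j ⌊σ * N⌋₊ ∧ RK.X2 F t d e ∧ ∀ z, ∃ c, RK.Falsified (RK.cls F c) z)
      (fun F => RK.X1 F j ⌊σ * N⌋₊) (fun F => RK.X2 F t d e)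
      (fun F => ∀ z, ∃ c, RK.Falsified (RK.cls F c) z) N hN1
      (((2 * N) ^ k : ℝ) ^ m) (by positivity) (fun F _ a b c => ⟨a, b, c⟩)
      (hb _ _ ((RK.natcard_le _ _ fun _ h => h.2).trans (hPX1 N k m j _ hN1 hs₀)) hx1)
      (hb _ _ ((RK.natcard_le _ _ fun _ h => h.2).trans
        (hPX2 N k m t d e hN1 (by omega) (by omega))) hx2)
      (hb _ _ ((RK.natcard_le _ _ fun _ h => h.2).trans (hPSA N k m hN1)) hx3)
    have h2 : Nat.card {F : RK.Fml N k m // True ∧ ¬ (RK.X1 F j ⌊σ * N⌋₊ ∧ RK.X2 F t d e ∧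
        ∀ z, ∃ c, RK.Falsified (RK.cls F c) z)} = Nat.card (RK.Fml N k m) := by
      refine Nat.card_congr (Equiv.subtypeUnivEquiv fun F => ⟨trivial, ?_⟩)
      rintro ⟨h1, h2, h3⟩
      obtain ⟨z, hz⟩ := hno F h1 h2
      obtain ⟨c, hc⟩ := h3 z
      exact hz c hc
    rw [h2, hT] at h1
    have h3 : (0 : ℝ) < ((2 * N) ^ k : ℝ) ^ m := by positivity
    have h4 : (N : ℝ) ≤ 1 := by
      by_contra h5
      push Not at h5
      have := mul_lt_mul_of_pos_right h5 h3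
      linarith
    have h5 : N ≤ 1 := by exact_mod_cast h4
    omega
  obtain ⟨F, hF1, hF2, hF3⟩ := hex
  have hP : RK.Par F j t d e ⌊σ * N⌋₊ := ⟨hF1, hF2, hj2, ht1, hts, hte, hje, by omega⟩
  obtain ⟨G, hG⟩ := hADV N k m F j t d e _ hP (by omega)
  refine ⟨m, le_of_eq hm, F, N - (e + d), G, hF3, hG, Nat.sub_le _ _, ?_⟩
  have h3d : (3 * d : ℝ) ≤ ε * N := by
    have h1 : (1 : ℝ) ≤ RK.bl N (2 * t * (N * (k / k) / d + 1)) := by
      have h2 : 1 ≤ RK.bl N (2 * t * (N * (k / k) / d + 1)) := by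
        unfold RK.bl
        refine le_trans (le_of_eq (Nat.choose_zero_right N).symm)
          (Finset.single_le_sum (f := fun i => N.choose i) (fun _ _ => Nat.zero_le _)
            (Finset.mem_range.2 (Nat.succ_pos _)))
      exact_mod_cast h2
    have h2 : (2 : ℝ) ^ (3 * d) ≤ (2 : ℝ) ^ (ε * N) := by
      refine le_trans ?_ hA
      calc (2 : ℝ) ^ (3 * d) = (2 : ℝ) ^ (3 * d) * 1 := (mul_one _).symm
        _ ≤ _ := mul_le_mul_of_nonneg_left h1 (by positivity)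
    rw [← Real.rpow_natCast] at h2
    have h3 := (Real.rpow_le_rpow_left_iff (by norm_num : (1 : ℝ) < 2)).1 h2
    push_cast at h3
    exact h3
  have h4 : (e : ℝ) + d ≤ 3 * d := by
    have : e + d ≤ 3 * d := by omega
    exact_mod_cast this
  rw [Nat.cast_sub (by omega)]
  push_cast
  linarith

end Pool.Agent.H4.PRY
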